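import Pool.Agent.H91.BernV

set_option autoImplicit false

open H91.BernV in
theorem Pool.Agent.Results.MP_814f17_an.Voronovskaja.result :
    ∀ (R1 R2 : ℝ) (a : ℕ × ℕ → ℂ) (f : ℂ → ℂ → ℂ), 1 < R1 → 1 < R2 →
    (∀ u v : ℂ, ‖u‖ < R1 → ‖v‖ < R2 → HasSum (fun p : ℕ × ℕ => a p * u ^ p.1 * v ^ p.2) (f u v)) →
    ∀ r s : ℝ, 1 ≤ r → r < R1 → 1 ≤ s → s < R2 → ∃ C : ℝ, ∀ n : ℕ, 1 ≤ n →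
      ∀ u v : ℂ, ‖u‖ ≤ r → ‖v‖ ≤ s → ‖E n f u v‖ ≤ C / (n : ℝ) ^ 2 :=
  main
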